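import Pool.Agent.Lib.MP_acafa7_al.MS.H57.QuadA

/-! Module ApexG (9.4). -/

namespace MSG.H57

open Classical

theorem apexg : ApexGStatement := by
  intro r r' s α β hT hα0 hαπ hβ0 hβπ hsum
  have hr := hT.px
  have hr' := hT.py
  have hs := hT.pz
  have h1 := hT.hx
  have h2 := hT.hy
  have lw := law hT
  have A0 := ang_pos hT
  have Aπ := ang_lt_pi hT
  set A2 := ang r r' s with hA2
  rcases le_or_gt (α + β) Real.pi with hS | hS
  · have hcos : Real.cos (α + β) ≤ -Real.cos A2 := by
      rw [← Real.cos_pi_sub]
      exact Real.cos_le_cos_of_nonneg_of_le_pi (by linarith) hS (by linarith)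
    have qα := Real.sin_sq_add_cos_sq α
    have qβ := Real.sin_sq_add_cos_sq β
    have hsq : (r * Real.cos α + r' * Real.cos β) ^ 2 ≤ s ^ 2 := by
      rw [Real.cos_add] at hcos
      have e : (r * Real.cos α + r' * Real.cos β) ^ 2 +
          (r * Real.sin α - r' * Real.sin β) ^ 2 = r ^ 2 + r' ^ 2 +
            2 * (r * r') * (Real.cos α * Real.cos β - Real.sin α * Real.sin β) := by
        linear_combination r ^ 2 * qα + r' ^ 2 * qβ
      have hrr : 0 < r * r' := mul_pos hr hr'
      nlinarith [sq_nonneg (r * Real.sin α - r' * Real.sin β), mul_le_mul_of_nonneg_left hcos hrr.le]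
    exact le_of_abs_le (abs_le_of_sq_le_sq hsq hs.le)
  · have hc : Real.cos β ≤ -Real.cos α := by
      rw [← Real.cos_pi_sub]
      exact Real.cos_le_cos_of_nonneg_of_le_pi (by linarith) hβπ.le (by linarith)
    have ca := Real.cos_le_one α
    have cb := Real.cos_le_one β
    rcases le_or_gt 0 (Real.cos α) with h | h
    · have e1 : r' * Real.cos β ≤ r' * (-Real.cos α) := mul_le_mul_of_nonneg_left hc hr'.le
      have e2 : (r - r') * Real.cos α ≤ s := by
        rcases le_or_gt r r' with h3 | h3
        · nlinarith
        · nlinarith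
      nlinarith
    · rcases le_or_gt 0 (Real.cos β) with h' | h'
      · have e1 : r * Real.cos α ≤ r * (-Real.cos β) :=
          mul_le_mul_of_nonneg_left (by linarith) hr.le
        have e2 : (r' - r) * Real.cos β ≤ s := by
          rcases le_or_gt r' r with h3 | h3
          · nlinarith
          · nlinarith
        nlinarith
      · nlinarith

end MSG.H57
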