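import Pool.Agent.Lib.MP_acafa7_al.MS.Iface2
import Pool.Agent.Lib.MP_acafa7_al.MS.Iface3

/-! Module Conn (Theorem 8.3): points moved a bounded distance are connected. -/

namespace MSG.H57

open Classical

theorem isW_support {V : Type} {G : SimpleGraph V} {x y : V} (p : G.Walk x y) :
    IsW G x y p.support := by
  refine ⟨p.isChain_adj_support, ?_, ?_⟩
  · rw [List.head?_eq_some_head p.support_ne_nil, p.head_support]
  · rw [List.getLast?_eq_some_getLast p.support_ne_nil, p.getLast_support]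

/-- walks from `x` to `a x` with at least three vertices -/
theorem exists_side {V : Type} {X : Cx V} {a : Equiv.Perm V} (hA : FreeAut X a)
    (hc : X.G.Connected) (x : V) (K : ℕ) (hK : X.G.dist x (a x) ≤ K) :
    ∃ s, IsW X.G x (a x) s ∧ 3 ≤ s.length ∧ s.length ≤ K + 3 := by
  obtain ⟨p, hp⟩ := hc.exists_walk_length_eq_dist x (a x)
  have hl : p.support.length = X.G.dist x (a x) + 1 := by
    rw [SimpleGraph.Walk.length_support, hp]
  rcases Nat.lt_or_ge 1 (X.G.dist x (a x)) with h | h
  · exact ⟨p.support, isW_support p, by omega, by omega⟩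
  · have hne : x ≠ a x := by
      intro e
      have := hA.free x 1 (by rw [zpow_one]; exact e.symm)
      norm_num at this
    have hpos := hc.pos_dist_of_ne hne
    have h1 : X.G.dist x (a x) = 1 := by omega
    have hadj := SimpleGraph.dist_eq_one_iff_adj.1 h1
    refine ⟨[x, a x, x, a x], ⟨?_, by simp, by simp⟩, by simp, by simp; omega⟩
    simp [hadj, hadj.symm]

theorem length_wkA {V D : Type} {a : Equiv.Perm V} (M : LMap V D a) :
    ∀ (l : List D) (s : ℤ), (M.wkA s l).length = l.length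
  | [], s => rfl
  | r :: l, s => by
    show (M.wkA (s + M.h r) l).length + 1 = _
    rw [length_wkA M l, List.length_cons]

theorem sum_le_card {D : Type} (f : D → ℝ) (Λ : ℝ) (h : ∀ d, f d ≤ Λ) :
    ∀ l : List D, (l.map f).sum ≤ (l.length : ℝ) * |Λ|
  | [] => by simp
  | r :: l => by
    have ih := sum_le_card f Λ h l
    have h1 := h r
    have h2 := le_abs_self Λ
    simp only [List.map_cons, List.sum_cons, List.length_cons, Nat.cast_add, Nat.cast_one]
    linarith

theorem conn (hTriB : TriBStatement) (hAnn : AnnStatement) (hD1 : D1Statement)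
    (hProper : ProperStatement) (hCYL : CYLStatement) : ConnStatement := by
  intro V X Γ _ _ hMS hG g hg K
  obtain ⟨C, Λ, hgeo⟩ := hTriB V X Γ hMS hG
  have hA : FreeAut X (MulAction.toPerm g) := (hProper V X Γ hG).2 g hg
  set a : Equiv.Perm V := MulAction.toPerm g with ha
  have hconn := hMS.conn
  set K1 : ℝ := (|Λ| + 1) * ((K : ℝ) + 2) with hK1
  have hK10 : 0 ≤ K1 := by positivity
  have hΛ : Λ ≤ K1 := by
    have := le_abs_self Λ
    have h2 := abs_nonneg Λ
    have h3 : (0 : ℝ) ≤ K := Nat.cast_nonneg _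
    nlinarith
  set K' : ℕ := ⌈3 * C * K1 + 8⌉₊ + 3 * K with hK'
  have hK'1 : 3 * C * K1 + 8 ≤ (K' : ℝ) := by
    have := Nat.le_ceil (3 * C * K1 + 8)
    rw [hK']; push_cast; have h3 : (0 : ℝ) ≤ K := Nat.cast_nonneg _
    linarith
  have hyp : Hyp9 X a C K1 K' := ⟨hA, hconn, hgeo.C0, hK10, hK'1⟩
  obtain ⟨c1, c2, c3, c4, c5, c6⟩ := hCYL V X a hA hconn K'
  refine ⟨K', ?_⟩
  intro x y hx hy
  obtain ⟨s, hs, hs3, hsK⟩ := exists_side hA hconn x K hx
  obtain ⟨s', hs', hs3', hsK'⟩ := exists_side hA hconn y K hy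
  obtain ⟨D, _, M, P, Q, hann, hadj, hwk, hfaceQ, c, hwkQ, -⟩ :=
    hAnn V X a hMS hA x y s s' hs hs' hs3 hs3'
  -- the lists
  obtain ⟨p, P', rfl⟩ : ∃ p P', P = p :: P' := by
    cases P with
    | nil => exact absurd rfl hann.faceP.1
    | cons p P' => exact ⟨p, P', rfl⟩
  obtain ⟨q, Q', rfl⟩ : ∃ q Q', Q = q :: Q' := by
    cases Q with
    | nil => exact absurd rfl hann.faceQ.1
    | cons q Q' => exact ⟨q, Q', rfl⟩
  have hwk' : s = M.f p :: M.wkA 0 (p :: P') := hwk.symm
  have hwkQ' : s'.reverse.map (a ^ c) = M.f q :: M.wkA 0 (q :: Q') := hwkQ.symm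
  have lenP : (p :: P').length + 1 = s.length := by
    rw [hwk', List.length_cons (a := M.f p), length_wkA]
  have lenQ : (q :: Q').length + 1 = s'.length := by
    have := congrArg List.length hwkQ'
    rw [List.length_map, List.length_reverse, List.length_cons (a := M.f q), length_wkA] at this
    exact this.symm
  have hfp : M.f p = x := by
    have := hs.first
    rw [hwk'] at this
    simpa using this
  have hfq : M.f q = (a ^ (c + 1)) y := by
    have h1 : (s'.reverse.map (a ^ c)).head? = some ((a ^ c) (a y)) := by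
      rw [List.head?_map, List.head?_reverse, hs'.last]; rfl
    rw [hwkQ'] at h1
    have h2 : M.f q = (a ^ c) (a y) := by simpa using h1
    rw [h2, zpow_add, zpow_one, Equiv.Perm.mul_apply]
  have hlen : ∀ d, M.lenM X d ≤ Λ := fun d => hgeo.le _ _ (hadj d)
  have hb : ∀ n : ℕ, n ≤ K + 2 → (n : ℝ) * |Λ| ≤ K1 := by
    intro n hn
    have h1 : (n : ℝ) ≤ (K : ℝ) + 2 := by exact_mod_cast hn
    have h2 := abs_nonneg Λ
    have h3 : (0 : ℝ) ≤ K := Nat.cast_nonneg _
    nlinarith
  have hsP : ((p :: P').map (M.lenM X)).sum ≤ K1 :=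
    (sum_le_card _ Λ hlen _).trans (hb _ (by omega))
  have hsQ : ((q :: Q').map (M.lenM X)).sum ≤ K1 :=
    (sum_le_card _ Λ hlen _).trans (hb _ (by omega))
  have key := hD1 V X a C Λ K1 K' hMS hgeo hΛ hyp D M (p :: P') (q :: Q') 1 hann hadj hsP hsQ
    p (by simp) q (by simp)
  rw [hfp, hfq] at key
  have h5 := c5 y (c + 1) K hy (by omega)
  exact c2 _ _ _ key (c1 _ _ h5)

end MSG.H57
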