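import Pool.Agent.Lib.MP_acafa7_al.MS.Iface2

/-! Module FilC: a filling exists on every realization of the triangle. -/

namespace MSG.H57

open Classical

theorem conj_cases (w w0 : ℂ) (h1 : Complex.normSq w0 = Complex.normSq w)
    (h2 : Complex.normSq (w0 - 1) = Complex.normSq (w - 1)) : w0 = w ∨ w0 = (starRingEnd ℂ) w := by
  rw [Complex.normSq_apply, Complex.normSq_apply] at h1 h2
  simp only [Complex.sub_re, Complex.sub_im, Complex.one_re, Complex.one_im, sub_zero] at h2
  have hre : w0.re = w.re := by nlinarith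
  have him : w0.im ^ 2 = w.im ^ 2 := by
    rw [hre] at h1; nlinarith
  rcases sq_eq_sq_iff_eq_or_eq_neg.1 him with h | h
  · left; exact Complex.ext hre h
  · right; apply Complex.ext
    · simpa using hre
    · simpa using h

theorem exists_lin (b z b0 z0 : ℂ) (hb : b ≠ 0) (h1 : ‖b0‖ = ‖b‖) (h2 : ‖z0‖ = ‖z‖)
    (h3 : ‖z0 - b0‖ = ‖z - b‖) :
    ∃ L : ℂ →ₗ[ℝ] ℂ, L b = b0 ∧ L z = z0 ∧ ∀ p, ‖L p‖ = ‖p‖ := by
  have hnb : ‖b‖ ≠ 0 := norm_ne_zero_iff.2 hb
  have hb0 : b0 ≠ 0 := by
    rw [← norm_ne_zero_iff, h1]; exact hnb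
  have hw : Complex.normSq (z0 / b0) = Complex.normSq (z / b) := by
    rw [Complex.normSq_eq_norm_sq, Complex.normSq_eq_norm_sq, norm_div, norm_div, h1, h2]
  have hw1 : Complex.normSq (z0 / b0 - 1) = Complex.normSq (z / b - 1) := by
    rw [Complex.normSq_eq_norm_sq, Complex.normSq_eq_norm_sq, div_sub_one hb0, div_sub_one hb,
      norm_div, norm_div, h1, h3]
  rcases conj_cases _ _ hw hw1 with h | h
  · refine ⟨LinearMap.mulLeft ℝ (b0 / b), ?_, ?_, ?_⟩
    · simp only [LinearMap.mulLeft_apply]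
      field_simp
    · simp only [LinearMap.mulLeft_apply]
      have : z0 = b0 * (z0 / b0) := by field_simp
      rw [this, h]; field_simp
    · intro p
      simp only [LinearMap.mulLeft_apply]
      rw [norm_mul, norm_div, h1, div_self hnb, one_mul]
  · refine ⟨(LinearMap.mulLeft ℝ b0).comp
      (Complex.conjAe.toLinearMap.comp (LinearMap.mulLeft ℝ (1 / b))), ?_, ?_, ?_⟩
    · simp only [LinearMap.comp_apply, LinearMap.mulLeft_apply, AlgEquiv.toLinearMap_apply,
        Complex.conjAe_coe]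
      rw [one_div, inv_mul_cancel₀ hb, map_one, mul_one]
    · simp only [LinearMap.comp_apply, LinearMap.mulLeft_apply, AlgEquiv.toLinearMap_apply,
        Complex.conjAe_coe]
      rw [one_div, inv_mul_eq_div, ← h, mul_div_cancel₀ _ hb0]
    · intro p
      simp only [LinearMap.comp_apply, LinearMap.mulLeft_apply, AlgEquiv.toLinearMap_apply,
        Complex.conjAe_coe]
      rw [norm_mul, Complex.norm_conj, norm_mul, norm_div, norm_one, h1]
      field_simp

theorem filc : FilCStatement := by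
  intro V X C l1 l2 l3 e1 e2 e3 hT hF A B Z hAB hBZ hZA
  obtain ⟨A0, B0, Z0, F, hAB0, hBZ0, hZA0, hlip, hnear, h1, h2, h3⟩ := hF
  have hb : B - A ≠ 0 := by
    rw [← norm_ne_zero_iff, ← dist_eq_norm, dist_comm, hAB]; exact hT.px.ne'
  obtain ⟨L, hL1, hL2, hL3⟩ := exists_lin (B - A) (Z - A) (B0 - A0) (Z0 - A0) hb
    (by rw [← dist_eq_norm, ← dist_eq_norm, dist_comm B0, dist_comm B, hAB, hAB0])
    (by rw [← dist_eq_norm, ← dist_eq_norm, hZA, hZA0])
    (by
      rw [sub_sub_sub_cancel_right, sub_sub_sub_cancel_right, ← dist_eq_norm, ← dist_eq_norm,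
        dist_comm Z0, dist_comm Z, hBZ, hBZ0])
  let T : ℂ →ᵃ[ℝ] ℂ := L.toAffineMap + AffineMap.const ℝ ℂ (A0 - L A)
  have hT' : ∀ p, T p = L p + (A0 - L A) := fun p => rfl
  have hTA : T A = A0 := by rw [hT']; ring
  have hTB : T B = B0 := by
    rw [hT']; rw [map_sub] at hL1; linear_combination hL1
  have hTZ : T Z = Z0 := by
    rw [hT']; rw [map_sub] at hL2; linear_combination hL2
  have hTd : ∀ p q, dist (T p) (T q) = dist p q := by
    intro p q
    rw [hT', hT', dist_add_right, dist_eq_norm, ← map_sub, hL3, ← dist_eq_norm]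
  have hTseg : ∀ P Q s, T (seg P Q s) = seg (T P) (T Q) s := by
    intro P Q s
    unfold seg
    rw [hTd, hT', hT', hT', map_add]
    have : L (((s / dist P Q : ℝ) : ℂ) * (Q - P)) = ((s / dist P Q : ℝ) : ℂ) * (L Q - L P) := by
      rw [← map_sub, ← Complex.real_smul, map_smul, Complex.real_smul]
    rw [this]; ring
  have hTc : ∀ p ∈ convexHull ℝ {A, B, Z}, T p ∈ convexHull ℝ {A0, B0, Z0} := by
    intro p hp
    have h := T.image_convexHull {A, B, Z}
    have h' : T '' {A, B, Z} = {A0, B0, Z0} := by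
      rw [Set.image_insert_eq, Set.image_pair, hTA, hTB, hTZ]
    rw [h'] at h
    rw [← h]
    exact Set.mem_image_of_mem _ hp
  refine ⟨fun p => F (T p), ?_, ?_, ?_, ?_, ?_⟩
  · intro p hp q hq z
    rw [← hTd]
    exact hlip _ (hTc p hp) _ (hTc q hq) z
  · intro p hp
    exact hnear _ (hTc p hp)
  · intro s hs hs'
    show F (T (seg A B s)) = _
    rw [hTseg, hTA, hTB, h1 s hs hs']
  · intro s hs hs'
    show F (T (seg B Z s)) = _
    rw [hTseg, hTB, hTZ, h2 s hs hs']
  · intro s hs hs'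
    show F (T (seg Z A s)) = _
    rw [hTseg, hTZ, hTA, h3 s hs hs']

end MSG.H57
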