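import Pool.Agent.Lib.MP_acafa7_al.MS.Iface2

/-! Module FilR: rotation, translation and congruence of fillings. -/

namespace MSG.H57

open Classical

theorem edist_le_of_adj {V W : Type} {G : SimpleGraph V} {H : SimpleGraph W} (f : V → W)
    (hf : ∀ x y, G.Adj x y → H.Adj (f x) (f y)) (x y : V) : H.edist (f x) (f y) ≤ G.edist x y := by
  by_cases h : G.edist x y = ⊤
  · rw [h]; exact le_top
  · obtain ⟨p, hp⟩ := SimpleGraph.exists_walk_of_edist_ne_top h
    rw [← hp]
    have := SimpleGraph.edist_le (p.map (⟨f, fun {a b} => hf a b⟩ : G →g H))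
    rw [SimpleGraph.Walk.length_map] at this
    exact this

theorem dist_zpow {V : Type} {X : Cx V} {a : Equiv.Perm V} (h : FreeAut X a) (n : ℤ) (x y : V) :
    X.G.dist ((a ^ n) x) ((a ^ n) y) = X.G.dist x y := by
  have h1 : ∀ x y, X.G.Adj (a⁻¹ x) (a⁻¹ y) ↔ X.G.Adj x y := by
    intro x y
    have := h.adj (a⁻¹ x) (a⁻¹ y)
    simpa using this.symm
  have h2 : ∀ (m : ℕ) x y, X.G.Adj ((a ^ m) x) ((a ^ m) y) ↔ X.G.Adj x y := by
    intro m
    induction m with
    | zero => intro x y; simp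
    | succ m ih => intro x y; rw [pow_succ, Equiv.Perm.mul_apply, Equiv.Perm.mul_apply, ih, h.adj]
  have h3 : ∀ (m : ℕ) x y, X.G.Adj (((a⁻¹) ^ m) x) (((a⁻¹) ^ m) y) ↔ X.G.Adj x y := by
    intro m
    induction m with
    | zero => intro x y; simp
    | succ m ih => intro x y; rw [pow_succ, Equiv.Perm.mul_apply, Equiv.Perm.mul_apply, ih, h1]
  have h4 : ∀ (n : ℤ) x y, X.G.Adj ((a ^ n) x) ((a ^ n) y) ↔ X.G.Adj x y := by
    intro n x y
    obtain ⟨m, rfl | rfl⟩ := n.eq_nat_or_neg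
    · simpa using h2 m x y
    · rw [zpow_neg, ← inv_zpow, zpow_natCast]; exact h3 m x y
  have h5 : X.G.edist ((a ^ n) x) ((a ^ n) y) = X.G.edist x y := by
    apply le_antisymm
    · exact edist_le_of_adj (fun z => (a ^ n) z) (fun x y => (h4 n x y).2) x y
    · have := edist_le_of_adj (G := X.G) (H := X.G) (fun z => (a ^ (-n)) z)
        (fun x y => (h4 (-n) x y).2) ((a ^ n) x) ((a ^ n) y)
      simpa using this
  unfold SimpleGraph.dist
  rw [h5]

theorem near_sh {V : Type} {X : Cx V} {a : Equiv.Perm V} (h : FreeAut X a) (n : ℤ) {e : V → ℝ}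
    (he : Near X e) : Near X (sh a n e) := by
  obtain ⟨x, hx⟩ := he
  refine ⟨(a ^ n) x, fun z => ?_⟩
  have h1 := hx ((a ^ (-n)) z)
  have h2 : X.G.dist ((a ^ n) x) z = X.G.dist x ((a ^ (-n)) z) := by
    have := dist_zpow h n x ((a ^ (-n)) z)
    rw [← this]
    simp
  rw [h2]
  exact h1

theorem filr : FilRStatement := by
  intro V X a h C l1 l2 l3 e1 e2 e3 hF
  obtain ⟨A, B, Z, F, hAB, hBZ, hZA, hlip, hnear, h1, h2, h3⟩ := hF
  have hset : ({B, Z, A} : Set ℂ) = {A, B, Z} := by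
    ext p; simp only [Set.mem_insert_iff, Set.mem_singleton_iff]; tauto
  refine ⟨⟨B, Z, A, F, hBZ, hZA, hAB, ?_, ?_, h2, h3, h1⟩, ?_, ?_⟩
  · rw [hset]; exact hlip
  · rw [hset]; exact hnear
  · intro n
    refine ⟨A, B, Z, fun p => sh a n (F p), hAB, hBZ, hZA, ?_, ?_, ?_, ?_, ?_⟩
    · intro p hp q hq z
      exact hlip p hp q hq _
    · intro p hp
      exact near_sh h n (hnear p hp)
    · intro s hs hs'
      show sh a n (F (seg A B s)) = _
      rw [h1 s hs hs']
    · intro s hs hs'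
      show sh a n (F (seg B Z s)) = _
      rw [h2 s hs hs']
    · intro s hs hs'
      show sh a n (F (seg Z A s)) = _
      rw [h3 s hs hs']
  · intro e1' e2' e3' he1 he2 he3
    refine ⟨A, B, Z, F, hAB, hBZ, hZA, hlip, hnear, ?_, ?_, ?_⟩
    · intro s hs hs'; rw [h1 s hs hs', he1 s hs hs']
    · intro s hs hs'; rw [h2 s hs hs', he2 s hs hs']
    · intro s hs hs'; rw [h3 s hs hs', he3 s hs hs']

end MSG.H57
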