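import Pool.Agent.Lib.MP_acafa7_al.MS.Iface2

/-! Module LevelG: level segments of a triangle. -/

namespace MSG.H57

open Classical

theorem levelg : LevelGStatement := by
  intro V X C l1 l2 l3 e1 e2 e3 hT hF τ h0 h1 z
  obtain ⟨A, B, Z, F, hAB, hBZ, hZA, hlip, hnear, f1, f2, f3⟩ := hF
  have n1 := hT.px.ne'
  have n3 := hT.pz.ne'
  have p1 : seg A B (τ * l1) = A + (τ : ℂ) * (B - A) := by
    unfold seg
    rw [hAB, mul_div_assoc, div_self n1, mul_one]
  have p2 : seg Z A ((1 - τ) * l3) = A + (τ : ℂ) * (Z - A) := by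
    unfold seg
    rw [hZA, mul_div_assoc, div_self n3, mul_one]
    push_cast
    ring
  have hA : A ∈ convexHull ℝ ({A, B, Z} : Set ℂ) := subset_convexHull ℝ _ (by simp)
  have hB : B ∈ convexHull ℝ ({A, B, Z} : Set ℂ) := subset_convexHull ℝ _ (by simp)
  have hZ : Z ∈ convexHull ℝ ({A, B, Z} : Set ℂ) := subset_convexHull ℝ _ (by simp)
  have mem : ∀ P ∈ convexHull ℝ ({A, B, Z} : Set ℂ), A + (τ : ℂ) * (P - A) ∈
      convexHull ℝ ({A, B, Z} : Set ℂ) := by
    intro P hP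
    have := (convex_convexHull ℝ ({A, B, Z} : Set ℂ)) hA hP (a := 1 - τ) (b := τ) (by linarith) h0
      (by ring)
    have e : (1 - τ) • A + τ • P = A + (τ : ℂ) * (P - A) := by
      rw [Complex.real_smul, Complex.real_smul]; push_cast; ring
    rwa [e] at this
  have hd : dist (A + (τ : ℂ) * (B - A)) (A + (τ : ℂ) * (Z - A)) = τ * l2 := by
    rw [dist_add_left, dist_eq_norm, ← mul_sub, sub_sub_sub_cancel_right, norm_mul,
      ← dist_eq_norm, hBZ, Complex.norm_real, Real.norm_eq_abs, abs_of_nonneg h0]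
  have g1 := f1 (τ * l1) (mul_nonneg h0 hT.px.le) (by nlinarith [hT.px])
  have g3 := f3 ((1 - τ) * l3) (mul_nonneg (by linarith) hT.pz.le) (by nlinarith [hT.pz])
  rw [← g1, ← g3, p1, p2, ← hd]
  exact hlip _ (mem B hB) _ (mem Z hZ) z

end MSG.H57
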