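import Pool.Agent.Lib.MP_acafa7_al.MS.Iface2

/-! Module QuadA: the other diagonal of a convex quadrilateral. -/

namespace MSG.H57

open Classical

theorem angle_eq_ang (p q r : ℂ) (h1 : q ≠ p) (h2 : q ≠ r) :
    EuclideanGeometry.angle p q r = ang (dist q p) (dist q r) (dist p r) := by
  have hx : dist q p ≠ 0 := dist_ne_zero.2 h1
  have hy : dist q r ≠ 0 := dist_ne_zero.2 h2
  have h :=
    EuclideanGeometry.dist_sq_eq_dist_sq_add_dist_sq_sub_two_mul_dist_mul_dist_mul_cos_angle p q r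
  have h' : (dist q p ^ 2 + dist q r ^ 2 - dist p r ^ 2) / (2 * dist q p * dist q r) =
      Real.cos (EuclideanGeometry.angle p q r) := by
    rw [div_eq_iff (mul_ne_zero (mul_ne_zero two_ne_zero hx) hy)]
    rw [dist_comm p q, dist_comm r q] at h
    linear_combination (-1 : ℝ) * h
  unfold ang
  rw [h', Real.arccos_cos (EuclideanGeometry.angle_nonneg _ _ _)
    (EuclideanGeometry.angle_le_pi _ _ _)]

theorem ang_comm (a b c : ℝ) : ang a b c = ang b a c := by
  unfold ang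
  congr 1
  rw [mul_right_comm 2 a b, add_comm (a ^ 2)]

theorem cos_bounds {a b c : ℝ} (h : Tr a b c) :
    -1 < (a ^ 2 + b ^ 2 - c ^ 2) / (2 * a * b) ∧ (a ^ 2 + b ^ 2 - c ^ 2) / (2 * a * b) < 1 := by
  obtain ⟨h1, h2, h3, h4, h5, h6⟩ := h
  have hp : 0 < 2 * a * b := by positivity
  constructor
  · rw [lt_div_iff₀ hp]
    nlinarith [mul_pos (sub_pos.2 h6) (add_pos (add_pos h1 h2) h3)]
  · rw [div_lt_iff₀ hp]
    nlinarith [mul_pos (sub_pos.2 h4) (sub_pos.2 h5)]

theorem cos_ang {a b c : ℝ} (h : Tr a b c) :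
    Real.cos (ang a b c) = (a ^ 2 + b ^ 2 - c ^ 2) / (2 * a * b) :=
  Real.cos_arccos (cos_bounds h).1.le (cos_bounds h).2.le

theorem ang_pos {a b c : ℝ} (h : Tr a b c) : 0 < ang a b c := Real.arccos_pos.2 (cos_bounds h).2

theorem ang_lt_pi {a b c : ℝ} (h : Tr a b c) : ang a b c < Real.pi := by
  unfold ang
  rw [← Real.arccos_neg_one]
  exact (Real.strictAntiOn_arccos.lt_iff_gt ⟨(cos_bounds h).1.le, (cos_bounds h).2.le⟩
    ⟨le_refl _, by norm_num⟩).2 (cos_bounds h).1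

theorem law {a b c : ℝ} (h : Tr a b c) : c ^ 2 = a ^ 2 + b ^ 2 - 2 * a * b * Real.cos (ang a b c) := by
  rw [cos_ang h]
  have h1 := h.px.ne'
  have h2 := h.py.ne'
  field_simp
  ring

/-- the triangle with two given sides and a given angle -/
theorem third {a b θ L : ℝ} (ha : 0 < a) (hb : 0 < b) (h0 : 0 < θ) (h1 : θ < Real.pi) (hL : 0 ≤ L)
    (h : L ^ 2 = a ^ 2 + b ^ 2 - 2 * a * b * Real.cos θ) : Tr L a b ∧ ang a b L = θ := by
  have hab : 0 < a * b := mul_pos ha hb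
  have hc1 : Real.cos θ < 1 := by
    rw [← Real.cos_zero]
    exact Real.cos_lt_cos_of_nonneg_of_le_pi (le_refl _) h1.le h0
  have hc2 : -1 < Real.cos θ := by
    rw [← Real.cos_pi]
    exact Real.cos_lt_cos_of_nonneg_of_le_pi h0.le (le_refl _) h1
  have hlow : (a - b) ^ 2 < L ^ 2 := by nlinarith
  have hup : L ^ 2 < (a + b) ^ 2 := by nlinarith
  have hL0 : 0 < L := by
    rcases hL.lt_or_eq with h | h
    · exact h
    · rw [← h] at hlow; nlinarith [sq_nonneg (a - b)]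
  have h3 : |a - b| < L := abs_lt_of_sq_lt_sq hlow hL
  have h4 : L < a + b := lt_of_pow_lt_pow_left₀ 2 (by positivity) hup
  rw [abs_lt] at h3
  refine ⟨⟨hL0, ha, hb, by linarith, by linarith, by linarith⟩, ?_⟩
  unfold ang
  have : (a ^ 2 + b ^ 2 - L ^ 2) / (2 * a * b) = Real.cos θ := by
    rw [h, div_eq_iff (by positivity)]; ring
  rw [this, Real.arccos_cos h0.le h1.le]

theorem dist_mk_eq {a b c d L : ℝ} (hL : 0 ≤ L) (h : (a - c) ^ 2 + (b - d) ^ 2 = L ^ 2) :
    dist (⟨a, b⟩ : ℂ) ⟨c, d⟩ = L := by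
  rw [Complex.dist_mk, h, Real.sqrt_sq hL]

theorem trSwap {a b c : ℝ} (h : Tr a b c) : Tr a c b :=
  ⟨h.px, h.pz, h.py, by linarith [h.hx], by linarith [h.hz], by linarith [h.hy]⟩

theorem trRot {a b c : ℝ} (h : Tr a b c) : Tr b c a :=
  ⟨h.py, h.pz, h.px, by linarith [h.hy], by linarith [h.hz], by linarith [h.hx]⟩

/-- projection and height -/
theorem proj_height {c a b : ℝ} (h : Tr c a b) :
    a * Real.cos (ang c a b) + b * Real.cos (ang c b a) = c ∧
      a * Real.sin (ang c a b) = b * Real.sin (ang c b a) := by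
  have hc := h.px
  have ha := h.py
  have hb := h.pz
  have e1 := cos_ang h
  have e2 := cos_ang (trSwap h)
  have p1 : a * Real.cos (ang c a b) + b * Real.cos (ang c b a) = c := by
    rw [e1, e2]; field_simp; ring
  refine ⟨p1, ?_⟩
  have s1 : 0 ≤ Real.sin (ang c a b) :=
    Real.sin_nonneg_of_nonneg_of_le_pi (ang_pos h).le (ang_lt_pi h).le
  have s2 : 0 ≤ Real.sin (ang c b a) :=
    Real.sin_nonneg_of_nonneg_of_le_pi (ang_pos (trSwap h)).le (ang_lt_pi (trSwap h)).le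
  have l1 := law h
  have q1 := Real.sin_sq_add_cos_sq (ang c a b)
  have q2 := Real.sin_sq_add_cos_sq (ang c b a)
  have : (a * Real.sin (ang c a b)) ^ 2 = (b * Real.sin (ang c b a)) ^ 2 := by
    have h1 : b * Real.cos (ang c b a) = c - a * Real.cos (ang c a b) := by linarith
    have h2 : (b * Real.sin (ang c b a)) ^ 2 = b ^ 2 - (b * Real.cos (ang c b a)) ^ 2 := by
      linear_combination b ^ 2 * q2
    have h3 : (a * Real.sin (ang c a b)) ^ 2 = a ^ 2 - (a * Real.cos (ang c a b)) ^ 2 := by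
      linear_combination a ^ 2 * q1
    rw [h2, h3, h1, l1]; ring
  exact (pow_left_inj₀ (mul_nonneg ha.le s1) (mul_nonneg hb.le s2) two_ne_zero).1 this

theorem quada : QuadAStatement := by
  intro c a1 a2 b1 b2 hQ
  obtain ⟨ta, tb, sv, sw⟩ := hQ
  have hc := ta.px
  have ha1 := ta.py
  have ha2 := ta.pz
  have hb1 := tb.py
  have hb2 := tb.pz
  have ta' : Tr c a2 a1 := trSwap ta
  have tb' : Tr c b1 b2 := tb
  -- angles at v and w
  set α := ang c a2 a1 with hα
  set β := ang b1 c b2 with hβ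
  set α' := ang a1 c a2 with hα'
  set β' := ang c b2 b1 with hβ'
  have hβc : β = ang c b1 b2 := ang_comm _ _ _
  have hα'c : α' = ang c a1 a2 := ang_comm _ _ _
  have pα : 0 < α := ang_pos ta'
  have pβ : 0 < β := by rw [hβc]; exact ang_pos tb
  have pα' : 0 < α' := by rw [hα'c]; exact ang_pos ta
  have pβ' : 0 < β' := ang_pos (trSwap tb)
  obtain ⟨j1, k1⟩ := proj_height ta'
  rw [← hα, ← hα'c] at j1 k1
  obtain ⟨j2, k2⟩ := proj_height tb
  rw [← hβc, ← hβ'] at j2 k2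
  have qα := Real.sin_sq_add_cos_sq α
  have qβ := Real.sin_sq_add_cos_sq β
  have qα' := Real.sin_sq_add_cos_sq α'
  have qβ' := Real.sin_sq_add_cos_sq β'
  set L := Real.sqrt (a2 ^ 2 + b1 ^ 2 - 2 * a2 * b1 * Real.cos (α + β)) with hL
  have hL0 : 0 ≤ L := Real.sqrt_nonneg _
  have hL2 : L ^ 2 = a2 ^ 2 + b1 ^ 2 - 2 * a2 * b1 * Real.cos (α + β) := by
    rw [hL, Real.sq_sqrt]
    have := Real.cos_le_one (α + β)
    nlinarith [sq_nonneg (a2 - b1), mul_pos ha2 hb1]
  have hL2' : L ^ 2 = a1 ^ 2 + b2 ^ 2 - 2 * a1 * b2 * Real.cos (α' + β') := by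
    rw [hL2, Real.cos_add, Real.cos_add]
    have m1 : a1 * Real.cos α' = c - a2 * Real.cos α := by linarith
    have m2 : b2 * Real.cos β' = c - b1 * Real.cos β := by linarith
    have n1 : a1 ^ 2 = (a1 * Real.cos α') ^ 2 + (a1 * Real.sin α') ^ 2 := by
      linear_combination (-a1 ^ 2) * qα'
    have n2 : b2 ^ 2 = (b2 * Real.cos β') ^ 2 + (b2 * Real.sin β') ^ 2 := by
      linear_combination (-b2 ^ 2) * qβ'
    have n3 : 2 * a1 * b2 * (Real.cos α' * Real.cos β' - Real.sin α' * Real.sin β') =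
      2 * ((a1 * Real.cos α') * (b2 * Real.cos β') - (a1 * Real.sin α') * (b2 * Real.sin β')) := by
      ring
    rw [n3, n1, n2, m1, m2, ← k1, ← k2]
    linear_combination (-a2 ^ 2) * qα + (-b1 ^ 2) * qβ
  obtain ⟨t1, av⟩ := third ha2 hb1 (by linarith) sv hL0 hL2
  obtain ⟨t2, aw⟩ := third ha1 hb2 (by linarith) sw hL0 hL2'
  -- the points
  let v : ℂ := ⟨0, 0⟩
  let w : ℂ := ⟨c, 0⟩
  let x : ℂ := ⟨a2 * Real.cos α, a2 * Real.sin α⟩
  let y : ℂ := ⟨b1 * Real.cos β, -(b1 * Real.sin β)⟩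
  have dvw : dist v w = c := dist_mk_eq hc.le (by ring)
  have dvx : dist v x = a2 := dist_mk_eq ha2.le (by linear_combination a2 ^ 2 * qα)
  have dvy : dist v y = b1 := dist_mk_eq hb1.le (by linear_combination b1 ^ 2 * qβ)
  have dwx : dist w x = a1 := dist_mk_eq ha1.le (by
    have m1 : c - a2 * Real.cos α = a1 * Real.cos α' := by linarith
    rw [m1, k1]; linear_combination a1 ^ 2 * qα')
  have dwy : dist w y = b2 := dist_mk_eq hb2.le (by
    have m1 : c - b1 * Real.cos β = b2 * Real.cos β' := by linarith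
    rw [m1, k2]; linear_combination b2 ^ 2 * qβ')
  have dxy : dist x y = L := dist_mk_eq hL0 (by
    rw [hL2, Real.cos_add]
    linear_combination a2 ^ 2 * qα + b1 ^ 2 * qβ)
  have nvw : v ≠ w := by rw [← dist_pos, dvw]; exact hc
  have nvx : v ≠ x := by rw [← dist_pos, dvx]; exact ha2
  have nvy : v ≠ y := by rw [← dist_pos, dvy]; exact hb1
  have nwx : w ≠ x := by rw [← dist_pos, dwx]; exact ha1
  have nwy : w ≠ y := by rw [← dist_pos, dwy]; exact hb2
  have nxy : x ≠ y := by rw [← dist_pos, dxy]; exact t1.px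
  -- angle sums
  have S1 := EuclideanGeometry.angle_add_angle_add_angle_eq_pi x nvw.symm
  have S2 := EuclideanGeometry.angle_add_angle_add_angle_eq_pi y nvw.symm
  have S3 := EuclideanGeometry.angle_add_angle_add_angle_eq_pi y nvx.symm
  have S4 := EuclideanGeometry.angle_add_angle_add_angle_eq_pi y nwx.symm
  have T1 := EuclideanGeometry.angle_le_angle_add_angle x v y w
  have T2 := EuclideanGeometry.angle_le_angle_add_angle y v x w
  rw [angle_eq_ang _ _ _ nvw.symm nwx, angle_eq_ang _ _ _ nwx.symm nvx.symm,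
    angle_eq_ang _ _ _ nvx nvw] at S1
  rw [angle_eq_ang _ _ _ nvw.symm nwy, angle_eq_ang _ _ _ nwy.symm nvy.symm,
    angle_eq_ang _ _ _ nvy nvw] at S2
  rw [angle_eq_ang _ _ _ nvx.symm nxy, angle_eq_ang _ _ _ nxy.symm nvy.symm,
    angle_eq_ang _ _ _ nvy nvx] at S3
  rw [angle_eq_ang _ _ _ nwx.symm nxy, angle_eq_ang _ _ _ nxy.symm nwy.symm,
    angle_eq_ang _ _ _ nwy nwx] at S4
  rw [angle_eq_ang _ _ _ nvx.symm nwx.symm, angle_eq_ang _ _ _ nvx.symm nxy,
    angle_eq_ang _ _ _ nxy nwx.symm] at T1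
  rw [angle_eq_ang _ _ _ nvy.symm nwy.symm, angle_eq_ang _ _ _ nvy.symm nxy.symm,
    angle_eq_ang _ _ _ nxy.symm nwy.symm] at T2
  have dwv : dist w v = c := by rw [dist_comm]; exact dvw
  have dxv : dist x v = a2 := by rw [dist_comm]; exact dvx
  have dyv : dist y v = b1 := by rw [dist_comm]; exact dvy
  have dxw : dist x w = a1 := by rw [dist_comm]; exact dwx
  have dyw : dist y w = b2 := by rw [dist_comm]; exact dwy
  have dyx : dist y x = L := by rw [dist_comm]; exact dxy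
  simp only [dvw, dvx, dvy, dwx, dwy, dxy, dwv, dxv, dyv, dxw, dyw, dyx] at S1 S2 S3 S4 T1 T2
  have av' : ang b1 a2 L = α + β := by rw [ang_comm]; exact av
  have aw' : ang a1 b2 L = α' + β' := aw
  have c1 : ang c a1 a2 = α' := hα'c.symm
  have c2 : ang a2 c a1 = α := ang_comm _ _ _
  have c3 : ang b1 c b2 = β := rfl
  have c4 : ang c b2 b1 = β' := rfl
  have c5 : ang b2 a1 L = ang a1 b2 L := ang_comm _ _ _
  have c6 : ang a1 a2 c = ang a2 a1 c := ang_comm _ _ _
  have c7 : ang b1 b2 c = ang b2 b1 c := ang_comm _ _ _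
  have c8 : ang b1 L a2 = ang L b1 a2 := ang_comm _ _ _
  have c9 : ang L b2 a1 = ang b2 L a1 := ang_comm _ _ _
  have c10 : ang a1 L b2 = ang L a1 b2 := ang_comm _ _ _
  have d1 : ang c b1 b2 = β := hβc.symm
  refine ⟨L, t1, trSwap t2, av', aw', ?_, ?_, hL2⟩
  · linarith
  · linarith

end MSG.H57
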