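import Pool.Agent.Lib.MP_acafa7_al.MS.Iface1

/-! Module RelTrans: transitivity of `Rel`. -/

namespace MSG.H57

open Classical

theorem face_closed {D : Type} (M : DMap D) {R : List D} (hR : R = [] ∨ M.IsFace R) {d : D}
    (hd : d ∉ R) : M.φ d ∉ R := by
  rcases hR with rfl | hR
  · simp
  · intro h
    have h1 : M.φ d ∈ R.rotate 1 := List.mem_rotate.mpr h
    rw [← hR.2.2] at h1
    obtain ⟨x, hx, hxd⟩ := List.mem_map.mp h1
    exact hd ((M.φ.injective hxd) ▸ hx)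

theorem reltrans : RelTransStatement := by
  intro V D D' D'' _ _ _ a M M' M'' R R' R'' n n' hR hR' h1 h2
  obtain ⟨j, jinj, jR, jφ, jf, jt, jc⟩ := h1
  obtain ⟨k, kinj, kR, kφ, kf, kt, kc⟩ := h2
  refine ⟨fun x => k ⟨j x, jR x⟩, ?_, ?_, ?_, ?_, ?_, ?_⟩
  · intro x y hxy
    exact jinj (congrArg Subtype.val (kinj hxy))
  · intro x
    exact kR _
  · intro x y hxy
    exact kφ ⟨j x, jR x⟩ ⟨j y, jR y⟩ (jφ x y hxy)
  · intro x
    have e1 := kf ⟨j x, jR x⟩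
    have e2 := jf x
    exact ⟨e1.1.trans e2.1, e1.2.trans e2.2⟩
  · intro d'' hd'' hx
    by_cases hk : ∀ x, k x ≠ d''
    · exact kt d'' hd'' hk
    · push Not at hk
      obtain ⟨⟨d', hd'⟩, hk⟩ := hk
      have hj : ∀ x, j x ≠ d' := by
        intro x hxd
        apply hx x
        have : (⟨j x, jR x⟩ : {d // d ∉ R'}) = ⟨d', hd'⟩ := Subtype.ext hxd
        rw [← hk, ← this]
      obtain ⟨⟨ht3, htn⟩, hth⟩ := jt d' hd' hj
      have hd1 : M'.φ d' ∉ R' := face_closed M'.toDMap hR' hd'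
      have hd2 : M'.φ (M'.φ d') ∉ R' := face_closed M'.toDMap hR' hd1
      have f1 : M''.φ (k ⟨d', hd'⟩) = k ⟨M'.φ d', hd1⟩ := kφ _ _ rfl
      have f2 : M''.φ (k ⟨M'.φ d', hd1⟩) = k ⟨M'.φ (M'.φ d'), hd2⟩ := kφ _ _ rfl
      have f3 : M''.φ (k ⟨M'.φ (M'.φ d'), hd2⟩) = k ⟨d', hd'⟩ := kφ _ _ ht3
      subst hk
      refine ⟨⟨?_, ?_⟩, ?_⟩
      · rw [f1, f2, f3]
      · rw [f1]
        intro h
        exact htn (congrArg Subtype.val (kinj h))
      · rw [f1, f2, (kf _).2, (kf _).2, (kf _).2]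
        exact hth
  · omega

end MSG.H57
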