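import Pool.Agent.Lib.MP_acafa7_al.MS.Iface1

/-! Module Step: one elementary homotopy on a face. -/

namespace MSG.H57

open Classical

theorem stepConcl_trans (hT : RelTransStatement) {V D : Type} [Fintype D] {a : Equiv.Perm V}
    {G : SimpleGraph V} {Y : Set V} {ω : V → V → V → ZMod 2} {M : LMap V D a} {R : List D}
    {w w' : List V} {e e' : ZMod 2} {n n' : ℕ} (hR : M.IsFace R)
    (h1 : StepConcl G Y ω M R w e n)
    (h2 : ∀ (D' : Type) [Fintype D'] (M' : LMap V D' a) (R' : List D'), M'.HasWalk R' w →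
      M'.Planar → M'.AdjM G → StepConcl G Y ω M' R' w' e' n') :
    StepConcl G Y ω M R w' (e + e') (n + n') := by
  obtain ⟨D', i', M', R', hw', hp', ha', hr', hz'⟩ := h1
  obtain ⟨D'', i'', M'', R'', hw'', hp'', ha'', hr'', hz''⟩ := h2 D' M' R' hw' hp' ha'
  refine ⟨D'', i'', M'', R'', hw'', hp'', ha'', ?_, ?_⟩
  · exact hT V D D' D'' a M M' M'' R R' R'' n n' (Or.inr hR) (Or.inr hw'.1) hr' hr''
  · intro hz
    obtain ⟨z1, y1, s1⟩ := hz' hz
    obtain ⟨z2, y2, s2⟩ := hz'' z1
    refine ⟨z2, fun h => y2 (y1 h), ?_⟩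
    rw [s2, s1, add_assoc]

theorem step (hI : StepIStatement) (hD : StepDStatement) (hC : StepCStatement)
    (hT : RelTransStatement) : StepStatement := by
  intro V D _ X a hA M R Y ω w w' e hω hP hAdj hW hS hlen
  cases hS with
  | ins u v x y hxy hy =>
    have : nTri (u ++ x :: v) (u ++ x :: y :: x :: v) = 0 := by
      unfold nTri
      rw [if_pos]
      right
      simp
      omega
    rw [this]
    exact hI V D X a hA M R Y ω u v x y hP hAdj hxy hy hW
  | del u v x y hxy =>
    have : nTri (u ++ x :: y :: x :: v) (u ++ x :: v) = 0 := by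
      unfold nTri
      rw [if_pos]
      left
      simp
      omega
    rw [this]
    exact hD V D X a hA M R Y ω u v x y hP hAdj (by omega) hW
  | con u v x y z hxy hyz hxz =>
    have : nTri (u ++ x :: y :: z :: v) (u ++ x :: z :: v) = 1 := by
      unfold nTri
      rw [if_neg]
      simp
      omega
    rw [this]
    exact hC V D X a hA M R Y ω u v x y z hω hP hAdj hxz hlen hW
  | exp u v x y z hxy hyz hxz hy =>
    have : nTri (u ++ x :: z :: v) (u ++ x :: y :: z :: v) = 0 + 1 := by
      unfold nTri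
      rw [if_neg]
      simp
      omega
    rw [this]
    have e1 : ω x y z = 0 + ω y x z := by rw [hω.s12, zero_add]
    rw [e1]
    refine stepConcl_trans hT hW.1 (w := u ++ x :: y :: x :: z :: v) ?_ ?_
    · exact hI V D X a hA M R Y ω u (z :: v) x y hP hAdj hxy hy hW
    · intro D' _ M' R' hW' hP' hA'
      have e2 : u ++ x :: y :: x :: z :: v = (u ++ [x]) ++ y :: x :: z :: v := by simp
      have e3 : u ++ x :: y :: z :: v = (u ++ [x]) ++ y :: z :: v := by simp
      rw [e2] at hW'
      rw [e3]
      rw [e3] at hlen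
      exact hC V D' X a hA M' R' Y ω (u ++ [x]) v y x z hω hP' hA' hyz hlen hW'

end MSG.H57
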